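import Pool.Agent.Helper15.T5.Stmts

set_option autoImplicit false

/-!
MP_2f9829_co, module TRP: the traces of the powers of the vertex matrix at the products.
-/

open Finset MeasureTheory Filter Topology

namespace Pool.Agent.Helper34.T5

open Pool.Agent.Helper15.T4 Pool.Agent.Helper46.T5 Pool.Agent.Helper15.T5

/-! ### Tensor products of matrices -/

/-- Reindexing of the labels. -/
def ee {K : ℕ} {J : Type} (φ : Fin K × Fin 2 ≃ J) : (J → Fin 3) ≃ (Fin K → Fin 3 × Fin 3) :=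
  ((Equiv.arrowCongr φ.symm (Equiv.refl (Fin 3))).trans (Equiv.curry (Fin K) (Fin 2) (Fin 3))).trans
    (Equiv.piCongrRight (fun _ => finTwoArrowEquiv (Fin 3)))

theorem ee_apply {K : ℕ} {J : Type} (φ : Fin K × Fin 2 ≃ J) (a : J → Fin 3) (p : Fin K) :
    ee φ a p = (a (φ (p, 0)), a (φ (p, 1))) := by
  rfl

theorem sum_prod_ee {K : ℕ} {J : Type} [Fintype J] [DecidableEq J] (φ : Fin K × Fin 2 ≃ J)
    (g : Fin K → Fin 3 × Fin 3 → ℝ) :
    ∑ a : J → Fin 3, ∏ p, g p (ee φ a p) = ∏ p, ∑ z, g p z := by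
  rw [Finset.prod_univ_sum, Fintype.piFinset_univ]
  exact Fintype.sum_equiv (ee φ) _ _ (fun a => rfl)

/-- The tensor product. -/
def tens {K : ℕ} {J : Type} (φ : Fin K × Fin 2 ≃ J)
    (r : Fin K → Matrix (Fin 3 × Fin 3) (Fin 3 × Fin 3) ℝ) : Matrix (J → Fin 3) (J → Fin 3) ℝ :=
  fun a b => ∏ p, r p (ee φ a p) (ee φ b p)

theorem tens_pow {K : ℕ} {J : Type} [Fintype J] [DecidableEq J] (φ : Fin K × Fin 2 ≃ J)
    (r : Fin K → Matrix (Fin 3 × Fin 3) (Fin 3 × Fin 3) ℝ) (n : ℕ) :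
    (tens φ r) ^ n = tens φ (fun p => r p ^ n) := by
  induction n with
  | zero =>
    funext a b
    simp only [pow_zero, tens, Matrix.one_apply]
    by_cases hab : a = b
    · subst hab
      simp
    · rw [if_neg hab]
      symm
      apply Finset.prod_eq_zero_iff.2
      by_contra hcon
      push Not at hcon
      apply hab
      apply (ee φ).injective
      funext p
      have := hcon p (mem_univ p)
      by_contra h
      exact this (if_neg h)
  | succ n ih =>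
    rw [pow_succ, ih]
    funext a b
    rw [Matrix.mul_apply]
    simp only [tens, ← Finset.prod_mul_distrib]
    rw [sum_prod_ee φ (fun p z => (r p ^ n) (ee φ a p) z * r p z (ee φ b p))]
    apply Finset.prod_congr rfl
    intro p _
    rw [pow_succ, Matrix.mul_apply]

theorem tens_trace {K : ℕ} {J : Type} [Fintype J] [DecidableEq J] (φ : Fin K × Fin 2 ≃ J)
    (r : Fin K → Matrix (Fin 3 × Fin 3) (Fin 3 × Fin 3) ℝ) :
    (tens φ r).trace = ∏ p, (r p).trace := by
  simp only [Matrix.trace, Matrix.diag, tens]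
  exact sum_prod_ee φ (fun p z => r p z z)

/-! ### One pair -/

/-- The matrix of one pair. -/
def rp (X : M3) : Matrix (Fin 3 × Fin 3) (Fin 3 × Fin 3) ℝ :=
  fun a b => ∑ m, ∑ n, ((eps a.1 b.1 m : ℤ) : ℝ) * ((eps a.2 b.2 n : ℤ) : ℝ) * X m n

theorem rp_apply (X : M3) (a1 a2 b1 b2 : Fin 3) : rp X (a1, a2) (b1, b2) =
    ∑ m, ∑ n, ((eps a1 b1 m : ℤ) : ℝ) * ((eps a2 b2 n : ℤ) : ℝ) * X m n := rfl

/-- Left multiplication. -/
def lm (X : M3) : Matrix (Fin 3 × Fin 3) (Fin 3 × Fin 3) ℝ :=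
  fun a b => if a.2 = b.2 then X a.1 b.1 else 0

theorem lm_mul (X Y : M3) : lm X * lm Y = lm (X * Y) := by
  funext a b
  rw [Matrix.mul_apply, Fintype.sum_prod_type]
  simp only [lm, Matrix.mul_apply]
  by_cases h : a.2 = b.2
  · simp [h]
  · simp only [h, if_false]
    apply Finset.sum_eq_zero
    intro i _
    apply Finset.sum_eq_zero
    intro j _
    by_cases h1 : a.2 = j
    · have h2 : j ≠ b.2 := fun h2 => h (h1.trans h2)
      simp [h2]
    · simp [h1]

theorem lm_one : lm 1 = 1 := by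
  funext a b
  simp only [lm, Matrix.one_apply]
  rcases a with ⟨a1, a2⟩
  rcases b with ⟨b1, b2⟩
  by_cases h1 : a1 = b1 <;> by_cases h2 : a2 = b2 <;> simp [h1, h2]

/-- The cofactor identities. -/
theorem so3_adj {O : M3} (h : SO3 O) : O.adjugate = O.transpose := by
  have h1 : O * O.adjugate = 1 := by rw [Matrix.mul_adjugate, h.2, one_smul]
  have h2 : O.transpose * O = 1 := mul_eq_one_comm.1 h.1
  calc O.adjugate = (O.transpose * O) * O.adjugate := by rw [h2, one_mul]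
    _ = O.transpose * (O * O.adjugate) := by rw [mul_assoc]
    _ = O.transpose := by rw [h1, mul_one]

theorem cof_id {O : M3} (h : SO3 O) (a b n : Fin 3) :
    ∑ c, ∑ m, ((eps a c m : ℤ) : ℝ) * O m n * O c b = ∑ c, O a c * ((eps c b n : ℤ) : ℝ) := by
  have hadj := so3_adj h
  rw [Matrix.adjugate_fin_three] at hadj
  have h00 := congrFun (congrFun hadj 0) 0
  have h01 := congrFun (congrFun hadj 0) 1
  have h02 := congrFun (congrFun hadj 0) 2
  have h10 := congrFun (congrFun hadj 1) 0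
  have h11 := congrFun (congrFun hadj 1) 1
  have h12 := congrFun (congrFun hadj 1) 2
  have h20 := congrFun (congrFun hadj 2) 0
  have h21 := congrFun (congrFun hadj 2) 1
  have h22 := congrFun (congrFun hadj 2) 2
  simp [Matrix.transpose_apply] at h00 h01 h02 h10 h11 h12 h20 h21 h22
  fin_cases a <;> fin_cases b <;> fin_cases n <;>
    simp [Fin.sum_univ_three, eps] <;> linarith

theorem rp_conj {O : M3} (h : SO3 O) : rp O * lm O = lm O * rp 1 := by
  funext a b
  rcases a with ⟨a1, a2⟩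
  rcases b with ⟨b1, b2⟩
  rw [Matrix.mul_apply, Matrix.mul_apply, Fintype.sum_prod_type, Fintype.sum_prod_type]
  have hl : ∀ c1 : Fin 3, ∑ c2 : Fin 3, rp O (a1, a2) (c1, c2) * lm O (c1, c2) (b1, b2) =
      rp O (a1, a2) (c1, b2) * O c1 b1 := by
    intro c1
    rw [Finset.sum_eq_single b2]
    · simp [lm]
    · intro c2 _ hc
      simp [lm, hc]
    · intro hc
      exact absurd (mem_univ _) hc
  have hr : ∀ c1 : Fin 3, ∑ c2 : Fin 3, lm O (a1, a2) (c1, c2) * rp 1 (c1, c2) (b1, b2) =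
      O a1 c1 * rp 1 (c1, a2) (b1, b2) := by
    intro c1
    rw [Finset.sum_eq_single a2]
    · simp [lm]
    · intro c2 _ hc
      simp [lm, Ne.symm hc]
    · intro hc
      exact absurd (mem_univ _) hc
  rw [Finset.sum_congr rfl (fun c1 _ => hl c1), Finset.sum_congr rfl (fun c1 _ => hr c1)]
  have h1 : ∀ c1 : Fin 3, rp 1 (c1, a2) (b1, b2) =
      ∑ n : Fin 3, ((eps c1 b1 n : ℤ) : ℝ) * ((eps a2 b2 n : ℤ) : ℝ) := by
    intro c1
    rw [rp_apply]
    apply Finset.sum_congr rfl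
    intro m _
    simp [Matrix.one_apply]
  simp only [h1, rp_apply]
  calc ∑ x, (∑ m, ∑ n, ((eps a1 x m : ℤ) : ℝ) * ((eps a2 b2 n : ℤ) : ℝ) * O m n) * O x b1
      = ∑ n, ((eps a2 b2 n : ℤ) : ℝ) * ∑ c, ∑ m, ((eps a1 c m : ℤ) : ℝ) * O m n * O c b1 := by
        simp only [Fin.sum_univ_three]
        ring
    _ = ∑ n, ((eps a2 b2 n : ℤ) : ℝ) * ∑ c, O a1 c * ((eps c b1 n : ℤ) : ℝ) := by
        simp only [cof_id h]
    _ = ∑ x, O a1 x * ∑ n, ((eps x b1 n : ℤ) : ℝ) * ((eps a2 b2 n : ℤ) : ℝ) := by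
        simp only [Fin.sum_univ_three]
        ring

theorem rp_trace {O : M3} (h : SO3 O) (n : ℕ) : ((rp O) ^ n).trace = ((rp 1) ^ n).trace := by
  have hinv : lm O * lm O.transpose = 1 := by rw [lm_mul, h.1, lm_one]
  have e1 : rp O = lm O * rp 1 * lm O.transpose := by
    rw [← rp_conj h, mul_assoc, hinv, mul_one]
  have hinv' : lm O.transpose * lm O = 1 := mul_eq_one_comm.1 hinv
  have e2 : (rp O) ^ n = lm O * (rp 1) ^ n * lm O.transpose := by
    induction n with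
    | zero => rw [pow_zero, pow_zero, mul_one, hinv]
    | succ n ih =>
      rw [pow_succ, ih, e1, pow_succ]
      calc lm O * (rp 1) ^ n * lm O.transpose * (lm O * rp 1 * lm O.transpose)
          = lm O * (rp 1) ^ n * (lm O.transpose * lm O) * rp 1 * lm O.transpose := by
            simp only [mul_assoc]
        _ = lm O * ((rp 1) ^ n * rp 1) * lm O.transpose := by
            rw [hinv', mul_one]
            simp only [mul_assoc]
  rw [e2, Matrix.trace_mul_comm, ← mul_assoc, hinv', one_mul]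

/-- The matrix `D`. -/
def DD : Matrix (Fin 3 × Fin 3) (Fin 3 × Fin 3) ℝ := fun a b => if a.1 = a.2 ∧ b.1 = b.2 then 1 else 0

/-- The transposition. -/
def FF : Matrix (Fin 3 × Fin 3) (Fin 3 × Fin 3) ℝ := fun a b => if a.1 = b.2 ∧ a.2 = b.1 then 1 else 0

theorem rp_one : rp 1 = DD - FF := by
  funext a b
  rcases a with ⟨a1, a2⟩
  rcases b with ⟨b1, b2⟩
  simp only [rp, DD, FF, Matrix.sub_apply]
  fin_cases a1 <;> fin_cases a2 <;> fin_cases b1 <;> fin_cases b2 <;>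
    simp [Fin.sum_univ_three, eps, Matrix.one_apply]

theorem DD_sq : DD * DD = (3 : ℝ) • DD := by
  funext a b
  rcases a with ⟨a1, a2⟩
  rcases b with ⟨b1, b2⟩
  rw [Matrix.mul_apply, Fintype.sum_prod_type]
  simp only [DD, Matrix.smul_apply, smul_eq_mul]
  by_cases h1 : a1 = a2 <;> by_cases h2 : b1 = b2 <;> simp [h1, h2]

theorem FF_DD : FF * DD = DD := by
  funext a b
  rcases a with ⟨a1, a2⟩
  rcases b with ⟨b1, b2⟩
  rw [Matrix.mul_apply, Fintype.sum_prod_type]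
  simp only [DD, FF]
  fin_cases a1 <;> fin_cases a2 <;> simp [Fin.sum_univ_three]

theorem DD_FF : DD * FF = DD := by
  funext a b
  rcases a with ⟨a1, a2⟩
  rcases b with ⟨b1, b2⟩
  rw [Matrix.mul_apply, Fintype.sum_prod_type]
  simp only [DD, FF]
  fin_cases b1 <;> fin_cases b2 <;> simp [Fin.sum_univ_three]

theorem FF_sq : FF * FF = 1 := by
  funext a b
  rcases a with ⟨a1, a2⟩
  rcases b with ⟨b1, b2⟩
  rw [Matrix.mul_apply, Fintype.sum_prod_type]
  simp only [FF, Matrix.one_apply]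
  fin_cases a1 <;> fin_cases a2 <;> fin_cases b1 <;> fin_cases b2 <;> simp [Fin.sum_univ_three]

theorem DD_trace : DD.trace = 3 := by
  rw [Matrix.trace, Fintype.sum_prod_type]
  simp [Matrix.diag, DD]

theorem FF_trace : FF.trace = 3 := by
  have h : ∀ a b : Fin 3, (if a = b ∧ b = a then (1 : ℝ) else 0) = if a = b then 1 else 0 := by
    intro a b
    by_cases h : a = b
    · simp [h]
    · simp [h]
  rw [Matrix.trace, Fintype.sum_prod_type]
  simp [Matrix.diag, FF, h]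

theorem rp_one_pow (n : ℕ) : ∃ a : ℝ, 3 * a = 2 ^ n - (-1) ^ n ∧
    (rp 1) ^ n = a • DD + (-1 : ℝ) ^ n • FF ^ n := by
  induction n with
  | zero => exact ⟨0, by norm_num, by simp⟩
  | succ n ih =>
    obtain ⟨a, ha, h⟩ := ih
    refine ⟨2 * a + (-1) ^ n, by rw [pow_succ, pow_succ]; linarith, ?_⟩
    have hFD : ∀ k : ℕ, FF ^ k * DD = DD := by
      intro k
      induction k with
      | zero => simp
      | succ k ih => rw [pow_succ, mul_assoc, FF_DD, ih]
    rw [pow_succ, h, rp_one, add_mul, mul_sub, mul_sub, smul_mul_assoc, smul_mul_assoc,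
      smul_mul_assoc, smul_mul_assoc, DD_sq, DD_FF, hFD, ← pow_succ]
    rw [pow_succ (-1 : ℝ) n]
    module

theorem rp_one_trace (n : ℕ) : ((rp 1) ^ n).trace =
    2 ^ n * (1 + 3 * (1 / 2) ^ n + 5 * (-(1 / 2)) ^ n) := by
  obtain ⟨a, ha, h⟩ := rp_one_pow n
  rw [h, Matrix.trace_add, Matrix.trace_smul, Matrix.trace_smul, DD_trace]
  have e1 : (2 : ℝ) ^ n * (1 / 2) ^ n = 1 := by rw [← mul_pow]; norm_num
  have e2 : (2 : ℝ) ^ n * (-(1 / 2)) ^ n = (-1) ^ n := by rw [← mul_pow]; norm_num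
  have e3 : (2 : ℝ) ^ n * (1 + 3 * (1 / 2) ^ n + 5 * (-(1 / 2)) ^ n) =
      2 ^ n + 3 * (2 ^ n * (1 / 2) ^ n) + 5 * (2 ^ n * (-(1 / 2)) ^ n) := by ring
  rw [e3, e1, e2]
  simp only [smul_eq_mul]
  rcases Nat.even_or_odd n with he | ho
  · have hF : FF ^ n = 1 := by
      obtain ⟨r, hr⟩ := he
      rw [hr, ← two_mul, pow_mul, pow_two, FF_sq, one_pow]
    rw [hF, Matrix.trace_one, he.neg_one_pow]
    rw [he.neg_one_pow] at ha
    simp
    linarith
  · have hF : FF ^ n = FF := by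
      obtain ⟨r, hr⟩ := ho
      rw [hr, pow_succ, pow_mul, pow_two, FF_sq, one_pow, one_mul]
    rw [hF, FF_trace, ho.neg_one_pow]
    rw [ho.neg_one_pow] at ha
    linarith

theorem rp_smul (c : ℝ) (X : M3) : rp (c • X) = c • rp X := by
  funext a b
  rcases a with ⟨a1, a2⟩
  rcases b with ⟨b1, b2⟩
  rw [Matrix.smul_apply, rp_apply, rp_apply, smul_eq_mul, Finset.mul_sum]
  apply Finset.sum_congr rfl
  intro m _
  rw [Finset.mul_sum]
  apply Finset.sum_congr rfl
  intro n _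
  rw [Matrix.smul_apply, smul_eq_mul]
  ring

theorem rp_trace_qq {O : M3} (h : SO3 O) (k : ℕ) :
    ((rp ((Real.sqrt 3)⁻¹ • O)) ^ (k + 1)).trace = qq ^ (k + 1) * tau5 k := by
  rw [rp_smul, smul_pow, Matrix.trace_smul, rp_trace h, rp_one_trace, smul_eq_mul, tau5, qq,
    div_pow, inv_pow]
  ring

/-! ### The vertex matrix at a product -/

theorem R_pt {K : ℕ} {J : Type} [Fintype J] [DecidableEq J] (φ : Fin K × Fin 2 ≃ J)
    (O : Fin K → M3) : (mJ J).R (pt φ O) =
      (algebraMap ℝ ℂ).mapMatrix (tens φ (fun p => rp ((Real.sqrt 3)⁻¹ • O p))) := by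
  funext a b
  have hl : ∀ c : J → Fin 3, (mJ J).l c (pt φ O) = ((pt φ O c : ℝ) : ℂ) := by
    intro c
    simp [Mdl.l, mJ]
  have hR : (mJ J).R (pt φ O) a b =
      ∑ c : J → Fin 3, (((∏ j, ((eps (a j) (b j) (c j) : ℤ) : ℝ) : ℝ) : ℂ)) *
        (mJ J).l c (pt φ O) := rfl
  rw [hR]
  simp only [hl]
  have hw : ∀ c : J → Fin 3, (∏ j, ((eps (a j) (b j) (c j) : ℤ) : ℝ)) * pt φ O c =
      ∏ p, (((eps (ee φ a p).1 (ee φ b p).1 (ee φ c p).1 : ℤ) : ℝ) *
        ((eps (ee φ a p).2 (ee φ b p).2 (ee φ c p).2 : ℤ) : ℝ) *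
        ((Real.sqrt 3)⁻¹ • O p) (ee φ c p).1 (ee φ c p).2) := by
    intro c
    rw [← Equiv.prod_comp φ (fun j => ((eps (a j) (b j) (c j) : ℤ) : ℝ)), Fintype.prod_prod_type, pt,
      ← Finset.prod_mul_distrib]
    apply Finset.prod_congr rfl
    intro p _
    rw [Fin.prod_univ_two, ee_apply, ee_apply, ee_apply, Matrix.smul_apply, smul_eq_mul]
    ring
  have hs : (∑ c : J → Fin 3, (∏ j, ((eps (a j) (b j) (c j) : ℤ) : ℝ)) * pt φ O c) =
      tens φ (fun p => rp ((Real.sqrt 3)⁻¹ • O p)) a b := by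
    simp only [hw]
    rw [sum_prod_ee φ (fun p z => (((eps (ee φ a p).1 (ee φ b p).1 z.1 : ℤ) : ℝ) *
        ((eps (ee φ a p).2 (ee φ b p).2 z.2 : ℤ) : ℝ) *
        ((Real.sqrt 3)⁻¹ • O p) z.1 z.2))]
    simp only [tens, rp, Fintype.sum_prod_type]
  have hm : ((algebraMap ℝ ℂ).mapMatrix (tens φ (fun p => rp ((Real.sqrt 3)⁻¹ • O p)))) a b =
      ((tens φ (fun p => rp ((Real.sqrt 3)⁻¹ • O p)) a b : ℝ) : ℂ) := rfl
  rw [hm, ← hs]
  push_cast
  rfl

/-- TRP. -/
theorem st_TRP : ST_TRP := by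
  intro K J _ _ φ O hO k
  rw [R_pt, ← map_pow, tens_pow]
  have ht : ((algebraMap ℝ ℂ).mapMatrix
      (tens φ (fun p => rp ((Real.sqrt 3)⁻¹ • O p) ^ (k + 1)))).trace =
      (((tens φ (fun p => rp ((Real.sqrt 3)⁻¹ • O p) ^ (k + 1))).trace : ℝ) : ℂ) := by
    simp [Matrix.trace, Matrix.diag]
  rw [ht, tens_trace]
  have hp : ∀ p, (rp ((Real.sqrt 3)⁻¹ • O p) ^ (k + 1)).trace = qq ^ (k + 1) * tau5 k :=
    fun p => rp_trace_qq (hO p) k
  simp only [hp]
  rw [Finset.prod_const, Finset.card_univ, Fintype.card_fin, mul_pow, ← pow_mul, ← pow_mul,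
    mul_comm (k + 1) K]

end Pool.Agent.Helper34.T5
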